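import Mathlib

namespace Pool.Agent.Results.MP_b1ca72_ag.NinthBasePoint

open MvPolynomial LinearAlgebra.Projectivization

/-! ### The objects of the statement -/

/-- The complex projective plane. -/
abbrev Plane : Type := ℙ ℂ (Fin 3 → ℂ)

/-- `HasMult F x k`: the form `F` has order of vanishing exactly `k` at `x`, that is
`F` lies in the `k`-th but not in the `(k+1)`-st power of the maximal ideal of a
representative vector of `x`. For a homogeneous `F` this says that the plane curve `F = 0` has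
multiplicity `k` at `x`. -/
def HasMult (F : MvPolynomial (Fin 3) ℂ) (x : Plane) (k : ℕ) : Prop :=
  F ∈ RingHom.ker (eval x.rep) ^ k ∧ F ∉ RingHom.ker (eval x.rep) ^ (k + 1)

/-- A polynomial in the coordinates of `r` vectors of `ℂ³` is multihomogeneous if it is
homogeneous in the coordinates of each of them. -/
def Multihomogeneous {r : ℕ} (G : MvPolynomial (Fin r × Fin 3) ℂ) : Prop :=
  ∃ e : Fin r → ℕ, ∀ i,
    IsWeightedHomogeneous (fun jk : Fin r × Fin 3 => if jk.1 = i then (1 : ℕ) else 0) G (e i)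

/-- Zariski closed subsets of `(ℙ²)^r`: common zero loci of sets of multihomogeneous
polynomials. -/
def IsZariskiClosed {r : ℕ} (Z : Set (Fin r → Plane)) : Prop :=
  ∃ I : Set (MvPolynomial (Fin r × Fin 3) ℂ), (∀ G ∈ I, Multihomogeneous G) ∧
    ∀ (v : Fin r → Fin 3 → ℂ) (hv : ∀ i, v i ≠ 0),
      (fun i => Projectivization.mk ℂ (v i) (hv i)) ∈ Z ↔
        ∀ G ∈ I, eval (fun jk : Fin r × Fin 3 => v jk.1 jk.2) G = 0

/-- `ReducedMember p d m t`: the points `p₁, …, p_r` are distinct and there is a plane curve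
`F = 0` of degree `d`, without multiple components, which has multiplicity exactly `m i` at `p i`
for every `i` and multiplicity exactly `t` at some further point `x` of the plane. Its strict
transform on the blow-up of the plane at the `p i` is then a reduced member of
`|dH - ∑ m i E_i|` with a point of multiplicity `t` (outside the exceptional curves). -/
def ReducedMember {r : ℕ} (p : Fin r → Plane) (d : ℕ) (m : Fin r → ℕ) (t : ℕ) : Prop :=
  Function.Injective p ∧
    ∃ F : MvPolynomial (Fin 3) ℂ, F ≠ 0 ∧ F.IsHomogeneous d ∧ Squarefree F ∧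
      (∀ i, HasMult F (p i) (m i)) ∧
      ∃ x : Plane, (∀ i, x ≠ p i) ∧ HasMult F x t

/-- exponents of the eight cubic monomials -/
def ea : Fin 8 → ℕ := ![0,1,0,2,1,0,2,1]
def eb : Fin 8 → ℕ := ![0,0,1,0,1,2,1,2]
def ec : Fin 8 → ℕ := ![3,2,2,1,1,1,0,0]

/-- the eight cubic monomials -/
noncomputable def q (j : Fin 8) : MvPolynomial (Fin 3) ℂ :=
  X 0 ^ ea j * X 1 ^ eb j * X 2 ^ ec j

noncomputable def f0 : MvPolynomial (Fin 3) ℂ := X 0 ^ 3 - X 0 * X 2 ^ 2
noncomputable def g0 : MvPolynomial (Fin 3) ℂ := X 1 ^ 3 - X 1 * X 2 ^ 2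

/-- the evaluation matrix -/
noncomputable def M (v : Fin 8 → Fin 3 → ℂ) : Matrix (Fin 8) (Fin 8) ℂ :=
  Matrix.of fun k j => eval (v k) (q j)

/-- the cubic form `det M • F - sum` vanishing at the eight points -/
noncomputable def corr (F : MvPolynomial (Fin 3) ℂ) (v : Fin 8 → Fin 3 → ℂ) :
    MvPolynomial (Fin 3) ℂ :=
  C (M v).det * F - ∑ j, C (((M v).adjugate.mulVec fun k => eval (v k) F) j) * q j

lemma adj_aux {n : ℕ} (A : Matrix (Fin n) (Fin n) ℂ) (b : Fin n → ℂ) (k : Fin n) :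
    ∑ j, (A.adjugate.mulVec b) j * A k j = A.det * b k := by
  have h1 : A.mulVec (A.adjugate.mulVec b) = A.det • b := by
    rw [Matrix.mulVec_mulVec, Matrix.mul_adjugate, Matrix.smul_mulVec, Matrix.one_mulVec]
  have h2 := congrFun h1 k
  rw [Pi.smul_apply, smul_eq_mul] at h2
  rw [← h2]
  simp only [Matrix.mulVec, dotProduct]
  exact Finset.sum_congr rfl fun j _ => mul_comm _ _

lemma eval_corr (F : MvPolynomial (Fin 3) ℂ) (v : Fin 8 → Fin 3 → ℂ) (k : Fin 8) :
    eval (v k) (corr F v) = 0 := by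
  have h := adj_aux (M v) (fun k => eval (v k) F) k
  simp only [corr, map_sub, map_mul, eval_C, map_sum]
  rw [sub_eq_zero, ← h]
  rfl

def Pz : Fin 8 → Fin 3 → ℤ :=
  ![![-1,-1,1], ![0,-1,1], ![1,-1,1], ![-1,0,1], ![0,0,1], ![1,0,1], ![-1,1,1], ![0,1,1]]

def Mz : Matrix (Fin 8) (Fin 8) ℤ :=
  Matrix.of fun k j => Pz k 0 ^ ea j * Pz k 1 ^ eb j * Pz k 2 ^ ec j

def Nz : Matrix (Fin 8) (Fin 8) ℤ :=
  !![0, 0, 0, 0, 2, 0, 0, 0;
     0, 0, 0, -1, 0, 1, 0, 0;
     0, -1, 0, 0, 0, 0, 0, 1;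
     0, 0, 0, 1, -2, 1, 0, 0;
     0, 1, -1, 1, -2, 1, -1, 1;
     0, 1, 0, 0, -2, 0, 0, 1;
     -1, 2, -1, 1, -2, 1, 0, 0;
     -1, 1, 0, 2, -2, 0, -1, 1]

lemma Mz_mul_Nz : Mz * Nz = (2 : ℤ) • (1 : Matrix (Fin 8) (Fin 8) ℤ) := by
  decide

lemma det_Mz : Mz.det ≠ 0 := by
  intro h
  have h1 := congrArg Matrix.det Mz_mul_Nz
  rw [Matrix.det_mul, h, zero_mul, Matrix.det_smul] at h1
  simp at h1

/-- the base configuration -/
noncomputable def v0 : Fin 8 → Fin 3 → ℂ := fun k i => (Pz k i : ℂ)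

lemma M_v0 : M v0 = Mz.map (Int.castRingHom ℂ) := by
  ext k j
  simp [M, Mz, q, v0]

lemma det_M_v0 : (M v0).det ≠ 0 := by
  rw [M_v0, ← RingHom.mapMatrix_apply, ← RingHom.map_det]
  simpa using det_Mz

lemma eval_f0_v0 (k : Fin 8) : eval (v0 k) f0 = 0 := by
  fin_cases k <;> simp [f0, v0, Pz] <;> norm_num

lemma eval_g0_v0 (k : Fin 8) : eval (v0 k) g0 = 0 := by
  fin_cases k <;> simp [g0, v0, Pz] <;> norm_num

lemma corr_f0_v0 : corr f0 v0 = C (M v0).det * f0 := by
  have : (fun k => eval (v0 k) f0) = 0 := by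
    funext k; exact eval_f0_v0 k
  simp [corr, this]

lemma corr_g0_v0 : corr g0 v0 = C (M v0).det * g0 := by
  have : (fun k => eval (v0 k) g0) = 0 := by
    funext k; exact eval_g0_v0 k
  simp [corr, this]

lemma q_hom (j : Fin 8) : (q j).IsHomogeneous 3 := by
  have h : ea j + eb j + ec j = 3 := by fin_cases j <;> rfl
  have h2 := (((isHomogeneous_X_pow (R := ℂ) (0 : Fin 3) (ea j)).mul
    (isHomogeneous_X_pow 1 (eb j))).mul (isHomogeneous_X_pow 2 (ec j)))
  rw [h] at h2
  exact h2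

lemma f0_hom : f0.IsHomogeneous 3 := by
  refine IsHomogeneous.sub (isHomogeneous_X_pow 0 3) ?_
  exact (isHomogeneous_X ℂ 0).mul (isHomogeneous_X_pow 2 2)

lemma g0_hom : g0.IsHomogeneous 3 := by
  refine IsHomogeneous.sub (isHomogeneous_X_pow 1 3) ?_
  exact (isHomogeneous_X ℂ 1).mul (isHomogeneous_X_pow 2 2)

lemma corr_hom {F : MvPolynomial (Fin 3) ℂ} (hF : F.IsHomogeneous 3) (v : Fin 8 → Fin 3 → ℂ) :
    (corr F v).IsHomogeneous 3 := by
  refine IsHomogeneous.sub (hF.C_mul _) (IsHomogeneous.sum _ _ _ fun j _ => (q_hom j).C_mul _)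

/-- Scaling of a homogeneous form. -/
lemma eval_smul_hom {F : MvPolynomial (Fin 3) ℂ} {n : ℕ} (hF : F.IsHomogeneous n) (s : ℂ)
    (u : Fin 3 → ℂ) : eval (s • u) F = s ^ n * eval u F := by
  rw [eval_eq', eval_eq', Finset.mul_sum]
  refine Finset.sum_congr rfl fun d hd => ?_
  have hdeg : ∑ i, d i = n := by
    have := hF.degree_eq_sum_deg_support hd
    rw [this]
    exact (Finset.sum_subset (Finset.subset_univ _) (by simp)).symm
  simp only [Pi.smul_apply, smul_eq_mul, mul_pow, Finset.prod_mul_distrib]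
  rw [Finset.prod_pow_eq_pow_sum, hdeg]
  ring

lemma pderiv_hom {F : MvPolynomial (Fin 3) ℂ} {n : ℕ} (hF : F.IsHomogeneous (n + 1))
    (i : Fin 3) : (pderiv i F).IsHomogeneous n := by
  intro d hd
  rw [coeff_pderiv] at hd
  have h1 : coeff (d + Finsupp.single i 1) F ≠ 0 := left_ne_zero_of_mul hd
  have h2 := hF h1
  rw [map_add] at h2
  simp [Finsupp.weight_single] at h2
  exact h2


/-! ### Analysis: the ninth base point -/

lemma contDiff_eval {E : Type*} [NormedAddCommGroup E] [NormedSpace ℂ E]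
    (P : MvPolynomial (Fin 3) ℂ) {u : E → Fin 3 → ℂ} (hu : ContDiff ℂ 1 u) :
    ContDiff ℂ 1 fun e => eval (u e) P := by
  have h : ContDiff ℂ 1 fun x : Fin 3 → ℂ => eval x P :=
    ((AnalyticOnNhd.eval_mvPolynomial P).contDiff)
  exact h.comp hu

lemma contDiff_det {E : Type*} [NormedAddCommGroup E] [NormedSpace ℂ E] {n : ℕ}
    {A : E → Matrix (Fin n) (Fin n) ℂ} (hA : ∀ i j, ContDiff ℂ 1 fun e => A e i j) :
    ContDiff ℂ 1 fun e => (A e).det := by
  simp only [Matrix.det_apply]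
  refine ContDiff.sum fun σ _ => ?_
  refine ContDiff.const_smul _ ?_
  exact contDiff_prod fun i _ => hA _ _

lemma contDiff_adj {E : Type*} [NormedAddCommGroup E] [NormedSpace ℂ E] {n : ℕ}
    {A : E → Matrix (Fin n) (Fin n) ℂ} (hA : ∀ i j, ContDiff ℂ 1 fun e => A e i j)
    (i j : Fin n) :
    ContDiff ℂ 1 fun e => (A e).adjugate i j := by
  simp only [Matrix.adjugate_apply]
  refine contDiff_det fun k l => ?_
  by_cases h : k = j
  · subst h
    simp only [Matrix.updateRow_self]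
    exact contDiff_const
  · simp only [Matrix.updateRow_ne h]
    exact hA k l

lemma contDiff_eval_corr {E : Type*} [NormedAddCommGroup E] [NormedSpace ℂ E]
    (P : MvPolynomial (Fin 3) ℂ) {v : E → Fin 8 → Fin 3 → ℂ} (hv : ContDiff ℂ 1 v)
    {u : E → Fin 3 → ℂ} (hu : ContDiff ℂ 1 u) :
    ContDiff ℂ 1 fun e => eval (u e) (corr P (v e)) := by
  have hvk : ∀ k, ContDiff ℂ 1 fun e => v e k := fun k => by
    exact (contDiff_pi.1 hv) k
  have hM : ∀ i j, ContDiff ℂ 1 fun e => M (v e) i j := fun i j => by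
    simp only [M, Matrix.of_apply]
    exact contDiff_eval _ (hvk i)
  simp only [corr, map_sub, map_mul, eval_C, map_sum]
  refine ContDiff.sub ((contDiff_det hM).mul (contDiff_eval _ hu)) ?_
  refine ContDiff.sum fun j _ => ?_
  refine ContDiff.mul ?_ (contDiff_eval _ hu)
  simp only [Matrix.mulVec, dotProduct]
  refine ContDiff.sum fun k _ => ?_
  exact (contDiff_adj hM j k).mul (contDiff_eval _ (hvk k))

/-- the affine chart -/
def chart (x : ℂ × ℂ) : Fin 3 → ℂ := ![x.1, x.2, 1]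

lemma contDiff_chart : ContDiff ℂ 1 chart := by
  rw [contDiff_pi]
  intro i
  fin_cases i
  · exact contDiff_fst
  · exact contDiff_snd
  · exact contDiff_const

/-- the first eight points -/
def first {n : ℕ} (w : Fin (8 + n) → Fin 3 → ℂ) : Fin 8 → Fin 3 → ℂ :=
  fun k => w (Fin.castAdd n k)

lemma contDiff_first {n : ℕ} : ContDiff ℂ 1 (first (n := n)) := by
  rw [contDiff_pi]
  intro i
  exact contDiff_apply ℂ _ _

/-- the pair of values of the two cubics -/
noncomputable def hh {n : ℕ} (e : (Fin (8 + n) → Fin 3 → ℂ) × (ℂ × ℂ)) : ℂ × ℂ :=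
  (eval (chart e.2) (corr f0 (first e.1)), eval (chart e.2) (corr g0 (first e.1)))

lemma contDiff_hh {n : ℕ} : ContDiff ℂ 1 (hh (n := n)) := by
  unfold hh
  refine ContDiff.prodMk ?_ ?_
  · exact contDiff_eval_corr _ (contDiff_first.comp contDiff_fst)
      (contDiff_chart.comp contDiff_snd)
  · exact contDiff_eval_corr _ (contDiff_first.comp contDiff_fst)
      (contDiff_chart.comp contDiff_snd)

lemma exists_ninth {n : ℕ} (w0 : Fin (8 + n) → Fin 3 → ℂ) (hw0 : first w0 = v0)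
    (A : Set ((Fin (8 + n) → Fin 3 → ℂ) × (ℂ × ℂ))) (hA : A ∈ nhds (w0, ((1 : ℂ), (1 : ℂ)))) :
    ∀ᶠ w in nhds w0, ∃ x, (w, x) ∈ A ∧ hh (w, x) = 0 := by
  set D : ℂ := (M v0).det with hD
  have hD0 : D ≠ 0 := det_M_v0
  set a : (Fin (8 + n) → Fin 3 → ℂ) × (ℂ × ℂ) := (w0, ((1 : ℂ), (1 : ℂ))) with ha
  have hs : HasStrictFDerivAt (hh (n := n)) (fderiv ℂ (hh (n := n)) a) a :=
    contDiff_hh.contDiffAt.hasStrictFDerivAt one_ne_zero
  set h' := fderiv ℂ (hh (n := n)) a with hh'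
  have hd : HasFDerivAt (hh (n := n)) h' a := hs.hasFDerivAt
  -- derivative in the first direction
  have h1 : h' (0, (1, 0)) = (2 * D, 0) := by
    have hc : HasDerivAt (fun s : ℂ => ((w0, (1 + s, 1)) :
        (Fin (8 + n) → Fin 3 → ℂ) × (ℂ × ℂ))) (0, (1, 0)) 0 := by
      refine HasDerivAt.prodMk (hasDerivAt_const _ _) (HasDerivAt.prodMk ?_ (hasDerivAt_const _ _))
      simpa using (hasDerivAt_id (0 : ℂ)).const_add 1
    have hd' : HasFDerivAt (hh (n := n)) h' ((fun s : ℂ => ((w0, (1 + s, 1)) :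
        (Fin (8 + n) → Fin 3 → ℂ) × (ℂ × ℂ))) 0) := by
      simpa [ha] using hd
    have h2 := hd'.comp_hasDerivAt (0 : ℂ) hc
    have h3 : HasDerivAt (fun s : ℂ => ((D * ((1 + s) ^ 3 - (1 + s)), 0) : ℂ × ℂ))
        (2 * D, 0) 0 := by
      refine HasDerivAt.prodMk ?_ (hasDerivAt_const _ _)
      have h4 : HasDerivAt (fun s : ℂ => 1 + s) 1 0 := by
        simpa using (hasDerivAt_id (0 : ℂ)).const_add 1
      have h5 := (((h4.pow 3).sub h4).const_mul D)
      refine h5.congr_deriv ?_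
      push_cast
      ring
    have h6 : (hh (n := n) ∘ fun s : ℂ => ((w0, (1 + s, 1)) :
        (Fin (8 + n) → Fin 3 → ℂ) × (ℂ × ℂ))) =
        fun s : ℂ => ((D * ((1 + s) ^ 3 - (1 + s)), 0) : ℂ × ℂ) := by
      funext s
      simp only [Function.comp, hh, hw0, corr_f0_v0, corr_g0_v0]
      simp [f0, g0, chart, hD]
    rw [h6] at h2
    exact h2.unique h3
  have h2 : h' (0, (0, 1)) = (0, 2 * D) := by
    have hc : HasDerivAt (fun s : ℂ => ((w0, (1, 1 + s)) :
        (Fin (8 + n) → Fin 3 → ℂ) × (ℂ × ℂ))) (0, (0, 1)) 0 := by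
      refine HasDerivAt.prodMk (hasDerivAt_const _ _) (HasDerivAt.prodMk (hasDerivAt_const _ _) ?_)
      simpa using (hasDerivAt_id (0 : ℂ)).const_add 1
    have hd' : HasFDerivAt (hh (n := n)) h' ((fun s : ℂ => ((w0, (1, 1 + s)) :
        (Fin (8 + n) → Fin 3 → ℂ) × (ℂ × ℂ))) 0) := by
      simpa [ha] using hd
    have h2 := hd'.comp_hasDerivAt (0 : ℂ) hc
    have h3 : HasDerivAt (fun s : ℂ => ((0, D * ((1 + s) ^ 3 - (1 + s))) : ℂ × ℂ))
        (0, 2 * D) 0 := by
      refine HasDerivAt.prodMk (hasDerivAt_const _ _) ?_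
      have h4 : HasDerivAt (fun s : ℂ => 1 + s) 1 0 := by
        simpa using (hasDerivAt_id (0 : ℂ)).const_add 1
      have h5 := (((h4.pow 3).sub h4).const_mul D)
      refine h5.congr_deriv ?_
      push_cast
      ring
    have h6 : (hh (n := n) ∘ fun s : ℂ => ((w0, (1, 1 + s)) :
        (Fin (8 + n) → Fin 3 → ℂ) × (ℂ × ℂ))) =
        fun s : ℂ => ((0, D * ((1 + s) ^ 3 - (1 + s))) : ℂ × ℂ) := by
      funext s
      simp only [Function.comp, hh, hw0, corr_f0_v0, corr_g0_v0]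
      simp [f0, g0, chart, hD]
    rw [h6] at h2
    exact h2.unique h3
  have h3 : ∀ y : ℂ × ℂ, h' (0, y) = (2 * D * y.1, 2 * D * y.2) := by
    intro y
    have : ((0, y) : (Fin (8 + n) → Fin 3 → ℂ) × (ℂ × ℂ)) =
        y.1 • ((0, (1, 0)) : (Fin (8 + n) → Fin 3 → ℂ) × (ℂ × ℂ)) +
        y.2 • ((0, (0, 1)) : (Fin (8 + n) → Fin 3 → ℂ) × (ℂ × ℂ)) := by
      ext <;> simp
    rw [this, map_add, map_smul, map_smul, h1, h2]
    ext <;> simp <;> ring
  -- the map Φ
  have hΦ : HasStrictFDerivAt (fun e : (Fin (8 + n) → Fin 3 → ℂ) × (ℂ × ℂ) => (e.1, hh e))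
      ((ContinuousLinearMap.fst ℂ _ _).prod h') a :=
    hasStrictFDerivAt_fst.prodMk hs
  have hsurj : (((ContinuousLinearMap.fst ℂ (Fin (8 + n) → Fin 3 → ℂ)
      (ℂ × ℂ)).prod h').toLinearMap).range = ⊤ := by
    rw [LinearMap.range_eq_top]
    rintro ⟨b, c⟩
    refine ⟨(b, ((c - h' (b, 0)).1 / (2 * D), (c - h' (b, 0)).2 / (2 * D))), ?_⟩
    have hdec : ((b, ((c - h' (b, 0)).1 / (2 * D), (c - h' (b, 0)).2 / (2 * D))) :
        (Fin (8 + n) → Fin 3 → ℂ) × (ℂ × ℂ)) = (b, 0) +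
        (0, ((c - h' (b, 0)).1 / (2 * D), (c - h' (b, 0)).2 / (2 * D))) := by
      ext <;> simp
    rw [hdec]
    simp only [ContinuousLinearMap.coe_coe, map_add, ContinuousLinearMap.prod_apply,
      ContinuousLinearMap.coe_fst', h3]
    ext
    · simp
    · simp; field_simp; ring
    · simp; field_simp; ring
  have hmap := hΦ.map_nhds_eq_of_surj hsurj
  have h00 : hh (n := n) a = 0 := by
    simp only [ha, hh, hw0, corr_f0_v0, corr_g0_v0]
    simp [f0, g0, chart]
  rw [h00] at hmap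
  have hA' : (fun e : (Fin (8 + n) → Fin 3 → ℂ) × (ℂ × ℂ) => (e.1, hh e)) '' A ∈
      nhds (a.1, (0 : ℂ × ℂ)) := by
    rw [← hmap]
    exact Filter.image_mem_map hA
  have hev : ∀ᶠ w in nhds w0, (w, (0 : ℂ × ℂ)) ∈
      (fun e : (Fin (8 + n) → Fin 3 → ℂ) × (ℂ × ℂ) => (e.1, hh e)) '' A := by
    have hcont : Filter.Tendsto (fun w : Fin (8 + n) → Fin 3 → ℂ => (w, (0 : ℂ × ℂ)))
        (nhds w0) (nhds (w0, (0 : ℂ × ℂ))) :=
      (Continuous.prodMk continuous_id continuous_const).tendsto _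
    exact hcont hA'
  refine hev.mono fun w hw => ?_
  obtain ⟨e, heA, he⟩ := hw
  rw [Prod.mk.injEq] at he
  refine ⟨e.2, ?_, ?_⟩
  · rw [← he.1]; exact heA
  · rw [← he.1]; exact he.2


/-! ### The open conditions -/

/-- the extra points -/
def extra {n : ℕ} (w : Fin (8 + n) → Fin 3 → ℂ) : Fin n → Fin 3 → ℂ :=
  fun i => w (Fin.natAdd 8 i)

/-- the member of the pencil through the `i`-th extra point -/
noncomputable def Cc {n : ℕ} (w : Fin (8 + n) → Fin 3 → ℂ) (i : Fin n) :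
    MvPolynomial (Fin 3) ℂ :=
  C (eval (extra w i) (corr g0 (first w))) * corr f0 (first w) -
    C (eval (extra w i) (corr f0 (first w))) * corr g0 (first w)

/-- the Jacobian determinant of the two cubics -/
noncomputable def Jac (v : Fin 8 → Fin 3 → ℂ) : MvPolynomial (Fin 3) ℂ :=
  pderiv 0 (corr f0 v) * pderiv 1 (corr g0 v) - pderiv 1 (corr f0 v) * pderiv 0 (corr g0 v)

structure Good {n : ℕ} (w : Fin (8 + n) → Fin 3 → ℂ) (u : Fin 3 → ℂ) : Prop where
  fu : eval u (corr f0 (first w)) = 0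
  gu : eval u (corr g0 (first w)) = 0
  det : (M (first w)).det ≠ 0
  dk : ∀ i k, eval (first w k) (pderiv 0 (Cc w i)) ≠ 0
  du : ∀ i, eval u (pderiv 0 (Cc w i)) ≠ 0
  dy : ∀ i, eval (extra w i) (pderiv 0 (Cc w i)) ≠ 0
  cy : ∀ i j, i ≠ j → eval (extra w j) (Cc w i) ≠ 0
  cross : ∀ k, crossProduct u (first w k) ≠ 0
  jac : ∀ k, eval (first w k) (Jac (first w)) ≠ 0

lemma continuous_aux {E : Type*} [TopologicalSpace E] (F P : MvPolynomial (Fin 3) ℂ)
    (Q : Fin 8 → MvPolynomial (Fin 3) ℂ)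
    {v : E → Fin 8 → Fin 3 → ℂ} (hv : Continuous v) {u : E → Fin 3 → ℂ} (hu : Continuous u) :
    Continuous fun e => (M (v e)).det * eval (u e) P -
      ∑ j, ((M (v e)).adjugate.mulVec fun k => eval (v e k) F) j * eval (u e) (Q j) := by
  have hvk : ∀ k, Continuous fun e => v e k := fun k => (continuous_pi_iff.1 hv) k
  have hM : Continuous fun e => M (v e) := by
    refine continuous_pi fun i => continuous_pi fun j => ?_
    simp only [M, Matrix.of_apply]
    exact (MvPolynomial.continuous_eval _).comp (hvk i)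
  refine Continuous.sub (hM.matrix_det.mul ((MvPolynomial.continuous_eval _).comp hu)) ?_
  refine continuous_finsetSum _ fun j _ => ?_
  refine Continuous.mul ?_ ((MvPolynomial.continuous_eval _).comp hu)
  simp only [Matrix.mulVec, dotProduct]
  refine continuous_finsetSum _ fun k _ => ?_
  refine Continuous.mul ?_ ((MvPolynomial.continuous_eval _).comp (hvk k))
  exact (continuous_apply k).comp ((continuous_apply j).comp hM.matrix_adjugate)

lemma continuous_corr {E : Type*} [TopologicalSpace E] (F : MvPolynomial (Fin 3) ℂ)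
    {v : E → Fin 8 → Fin 3 → ℂ} (hv : Continuous v) {u : E → Fin 3 → ℂ} (hu : Continuous u) :
    Continuous fun e => eval (u e) (corr F (v e)) := by
  simp only [corr, map_sub, map_mul, eval_C, map_sum]
  exact continuous_aux F F q hv hu

lemma continuous_pderiv_corr {E : Type*} [TopologicalSpace E] (F : MvPolynomial (Fin 3) ℂ)
    (i : Fin 3)
    {v : E → Fin 8 → Fin 3 → ℂ} (hv : Continuous v) {u : E → Fin 3 → ℂ} (hu : Continuous u) :
    Continuous fun e => eval (u e) (pderiv i (corr F (v e))) := by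
  simp only [corr, map_sub, map_mul, eval_C, map_sum, pderiv_C_mul]
  exact continuous_aux F (pderiv i F) (fun j => pderiv i (q j)) hv hu

lemma continuous_first {n : ℕ} : Continuous (first (n := n)) :=
  continuous_pi fun _ => continuous_apply _

lemma continuous_extra {n : ℕ} (i : Fin n) : Continuous fun w : Fin (8 + n) → Fin 3 → ℂ =>
    extra w i := continuous_apply _

lemma continuous_Cc {E : Type*} [TopologicalSpace E] {n : ℕ} (i : Fin n)
    {w : E → Fin (8 + n) → Fin 3 → ℂ} (hw : Continuous w) {u : E → Fin 3 → ℂ}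
    (hu : Continuous u) :
    Continuous fun e => eval (u e) (Cc (w e) i) := by
  simp only [Cc, map_sub, map_mul, eval_C]
  have h1 := continuous_first.comp hw
  have h2 := (continuous_extra i).comp hw
  exact ((continuous_corr g0 h1 h2).mul (continuous_corr f0 h1 hu)).sub
    ((continuous_corr f0 h1 h2).mul (continuous_corr g0 h1 hu))

lemma continuous_pderiv_Cc {E : Type*} [TopologicalSpace E] {n : ℕ} (i : Fin n) (l : Fin 3)
    {w : E → Fin (8 + n) → Fin 3 → ℂ} (hw : Continuous w) {u : E → Fin 3 → ℂ}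
    (hu : Continuous u) :
    Continuous fun e => eval (u e) (pderiv l (Cc (w e) i)) := by
  simp only [Cc, map_sub, map_mul, eval_C, pderiv_C_mul]
  have h1 := continuous_first.comp hw
  have h2 := (continuous_extra i).comp hw
  exact ((continuous_corr g0 h1 h2).mul (continuous_pderiv_corr f0 l h1 hu)).sub
    ((continuous_corr f0 h1 h2).mul (continuous_pderiv_corr g0 l h1 hu))

/-- the base configuration -/
noncomputable def w0 (n : ℕ) : Fin (8 + n) → Fin 3 → ℂ :=
  Fin.addCases v0 (fun i : Fin n => ![(i : ℂ) + 2, 2, 1])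

lemma first_w0 (n : ℕ) : first (w0 n) = v0 := by
  funext k
  simp [first, w0]

lemma extra_w0 (n : ℕ) (i : Fin n) : extra (w0 n) i = ![(i : ℂ) + 2, 2, 1] := by
  simp [extra, w0]

lemma Cc_w0 (n : ℕ) (i : Fin n) : Cc (w0 n) i =
    C ((M v0).det * 6 * (M v0).det) * f0 -
    C ((M v0).det * (((i : ℂ) + 2) ^ 3 - ((i : ℂ) + 2)) * (M v0).det) * g0 := by
  unfold Cc
  rw [first_w0, extra_w0, corr_f0_v0, corr_g0_v0]
  simp only [map_mul, eval_C]
  have h1 : eval ![(i : ℂ) + 2, 2, 1] g0 = 6 := by simp [g0]; norm_num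
  have h2 : eval ![(i : ℂ) + 2, 2, 1] f0 = ((i : ℂ) + 2) ^ 3 - ((i : ℂ) + 2) := by simp [f0]
  rw [h1, h2]
  ring

lemma pderiv_Cc_w0 (n : ℕ) (i : Fin n) : pderiv 0 (Cc (w0 n) i) =
    C ((M v0).det * 6 * (M v0).det) * (3 * X 0 ^ 2 - X 2 ^ 2) := by
  rw [Cc_w0, map_sub, pderiv_C_mul, pderiv_C_mul]
  have h1 : pderiv 0 f0 = 3 * X 0 ^ 2 - X 2 ^ 2 := by
    simp only [f0, map_sub, pderiv_mul, pderiv_pow, pderiv_X_self]
    rw [pderiv_X_of_ne (by decide : (2 : Fin 3) ≠ 0)]
    simp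
  have h2 : pderiv 0 g0 = 0 := by
    simp only [g0, map_sub, pderiv_mul, pderiv_pow]
    rw [pderiv_X_of_ne (by decide : (2 : Fin 3) ≠ 0), pderiv_X_of_ne (by decide : (1 : Fin 3) ≠ 0)]
    simp
  rw [h1, h2]
  ring

lemma Jac_v0 : Jac v0 = C ((M v0).det * (M v0).det) *
    ((3 * X 0 ^ 2 - X 2 ^ 2) * (3 * X 1 ^ 2 - X 2 ^ 2)) := by
  unfold Jac
  rw [corr_f0_v0, corr_g0_v0]
  simp only [pderiv_C_mul]
  have h1 : pderiv 0 f0 = 3 * X 0 ^ 2 - X 2 ^ 2 := by
    simp only [f0, map_sub, pderiv_mul, pderiv_pow, pderiv_X_self]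
    rw [pderiv_X_of_ne (by decide : (2 : Fin 3) ≠ 0)]
    simp
  have h2 : pderiv 0 g0 = 0 := by
    simp only [g0, map_sub, pderiv_mul, pderiv_pow]
    rw [pderiv_X_of_ne (by decide : (2 : Fin 3) ≠ 0), pderiv_X_of_ne (by decide : (1 : Fin 3) ≠ 0)]
    simp
  have h3 : pderiv 1 g0 = 3 * X 1 ^ 2 - X 2 ^ 2 := by
    simp only [g0, map_sub, pderiv_mul, pderiv_pow, pderiv_X_self]
    rw [pderiv_X_of_ne (by decide : (2 : Fin 3) ≠ 1)]
    simp
  rw [h1, h2, h3]
  simp only [map_mul]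
  ring

lemma exists_good (n : ℕ) : ∀ᶠ w in nhds (w0 n), ∃ x, Good w (chart x) := by
  have hfst : Continuous fun e : (Fin (8 + n) → Fin 3 → ℂ) × (ℂ × ℂ) => e.1 := continuous_fst
  have hch : Continuous fun e : (Fin (8 + n) → Fin 3 → ℂ) × (ℂ × ℂ) => chart e.2 :=
    contDiff_chart.continuous.comp continuous_snd
  have hf : Continuous fun e : (Fin (8 + n) → Fin 3 → ℂ) × (ℂ × ℂ) => first e.1 :=
    continuous_first.comp continuous_fst
  have hfk : ∀ k, Continuous fun e : (Fin (8 + n) → Fin 3 → ℂ) × (ℂ × ℂ) => first e.1 k :=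
    fun k => (continuous_pi_iff.1 hf) k
  have hy : ∀ i, Continuous fun e : (Fin (8 + n) → Fin 3 → ℂ) × (ℂ × ℂ) => extra e.1 i :=
    fun i => (continuous_extra i).comp continuous_fst
  have hD : (M v0).det ≠ 0 := det_M_v0
  have key := fun {α : Type} [TopologicalSpace α] [T2Space α] [Zero α]
    (φ : (Fin (8 + n) → Fin 3 → ℂ) × (ℂ × ℂ) → α) (hφ : Continuous φ)
    (h0 : φ (w0 n, ((1 : ℂ), (1 : ℂ))) ≠ 0) => hφ.continuousAt.eventually_ne h0
  have h1 : ∀ᶠ e : (Fin (8 + n) → Fin 3 → ℂ) × (ℂ × ℂ) in nhds (w0 n, ((1 : ℂ), (1 : ℂ))),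
      (M (first e.1)).det ≠ 0 := by
    have hM : Continuous fun e : (Fin (8 + n) → Fin 3 → ℂ) × (ℂ × ℂ) => M (first e.1) := by
      refine continuous_pi fun i => continuous_pi fun j => ?_
      simp only [M, Matrix.of_apply]
      exact (MvPolynomial.continuous_eval _).comp (hfk i)
    refine key _ hM.matrix_det ?_
    rw [first_w0]; exact hD
  have h2 : ∀ᶠ e : (Fin (8 + n) → Fin 3 → ℂ) × (ℂ × ℂ) in nhds (w0 n, ((1 : ℂ), (1 : ℂ))),
      ∀ i k, eval (first e.1 k) (pderiv 0 (Cc e.1 i)) ≠ 0 := by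
    rw [Filter.eventually_all]; intro i
    rw [Filter.eventually_all]; intro k
    refine key _ (continuous_pderiv_Cc i 0 hfst (hfk k)) ?_
    simp only [first_w0, pderiv_Cc_w0]
    fin_cases k <;> simp [v0, Pz, hD] <;> norm_num
  have h3 : ∀ᶠ e : (Fin (8 + n) → Fin 3 → ℂ) × (ℂ × ℂ) in nhds (w0 n, ((1 : ℂ), (1 : ℂ))),
      ∀ i, eval (chart e.2) (pderiv 0 (Cc e.1 i)) ≠ 0 := by
    rw [Filter.eventually_all]; intro i
    refine key _ (continuous_pderiv_Cc i 0 hfst hch) ?_
    simp only [pderiv_Cc_w0, chart]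
    simp [hD]
    norm_num
  have h4 : ∀ᶠ e : (Fin (8 + n) → Fin 3 → ℂ) × (ℂ × ℂ) in nhds (w0 n, ((1 : ℂ), (1 : ℂ))),
      ∀ i, eval (extra e.1 i) (pderiv 0 (Cc e.1 i)) ≠ 0 := by
    rw [Filter.eventually_all]; intro i
    refine key _ (continuous_pderiv_Cc i 0 hfst (hy i)) ?_
    simp only [pderiv_Cc_w0, extra_w0]
    simp [hD]
    have h : (3 * ((i : ℕ) + 2 : ℤ) ^ 2 - 1 : ℤ) ≠ 0 := by
      have : (0 : ℤ) ≤ (i : ℕ) := Int.natCast_nonneg _
      nlinarith
    have h' : ((3 * ((i : ℕ) + 2 : ℤ) ^ 2 - 1 : ℤ) : ℂ) ≠ 0 := Int.cast_ne_zero.2 h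
    push_cast at h'
    exact h'
  have h5 : ∀ᶠ e : (Fin (8 + n) → Fin 3 → ℂ) × (ℂ × ℂ) in nhds (w0 n, ((1 : ℂ), (1 : ℂ))),
      ∀ i j, i ≠ j → eval (extra e.1 j) (Cc e.1 i) ≠ 0 := by
    rw [Filter.eventually_all]; intro i
    rw [Filter.eventually_all]; intro j
    by_cases hij : i = j
    · exact Filter.Eventually.of_forall fun e h => absurd hij h
    refine (key _ (continuous_Cc i hfst (hy j)) ?_).mono fun e he _ => he
    simp only [Cc_w0, extra_w0]
    have h : (6 * (((j : ℕ) + 2 : ℤ) ^ 3 - ((j : ℕ) + 2)) -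
        (((i : ℕ) + 2 : ℤ) ^ 3 - ((i : ℕ) + 2)) * 6 : ℤ) ≠ 0 := by
      intro h0
      have hi : (0 : ℤ) ≤ (i : ℕ) := Int.natCast_nonneg _
      have hj : (0 : ℤ) ≤ (j : ℕ) := Int.natCast_nonneg _
      have hne : ((i : ℕ) : ℤ) ≠ (j : ℕ) := by
        intro h1
        exact hij (Fin.ext (by exact_mod_cast h1))
      have hfac : (((j : ℕ) : ℤ) - (i : ℕ)) * ((((j : ℕ) + 2 : ℤ)) ^ 2 +
          ((j : ℕ) + 2 : ℤ) * ((i : ℕ) + 2) + ((i : ℕ) + 2 : ℤ) ^ 2 - 1) = 0 := by
        have h6 : (6 : ℤ) * ((((j : ℕ) : ℤ) - (i : ℕ)) * ((((j : ℕ) + 2 : ℤ)) ^ 2 +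
          ((j : ℕ) + 2 : ℤ) * ((i : ℕ) + 2) + ((i : ℕ) + 2 : ℤ) ^ 2 - 1)) = 0 := by
          linear_combination h0
        omega
      rcases mul_eq_zero.1 hfac with h1 | h1
      · exact hne (by linarith)
      · nlinarith
    have h' := (Int.cast_ne_zero (α := ℂ)).2 h
    push_cast at h'
    have e1 : eval ![(j : ℂ) + 2, 2, 1] g0 = 6 := by simp [g0]; norm_num
    have e2 : eval ![(j : ℂ) + 2, 2, 1] f0 = ((j : ℂ) + 2) ^ 3 - ((j : ℂ) + 2) := by simp [f0]
    simp only [map_sub, map_mul, eval_C, e1, e2]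
    intro h1
    apply h'
    have h2 : (M v0).det * (M v0).det * (6 * (((j : ℂ) + 2) ^ 3 - ((j : ℂ) + 2)) -
        (((i : ℂ) + 2) ^ 3 - ((i : ℂ) + 2)) * 6) = 0 := by
      linear_combination h1
    rcases mul_eq_zero.1 h2 with h3 | h3
    · exact absurd h3 (mul_ne_zero hD hD)
    · exact h3
  have h6 : ∀ᶠ e : (Fin (8 + n) → Fin 3 → ℂ) × (ℂ × ℂ) in nhds (w0 n, ((1 : ℂ), (1 : ℂ))),
      ∀ k, crossProduct (chart e.2) (first e.1 k) ≠ 0 := by
    rw [Filter.eventually_all]; intro k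
    have hc : Continuous fun e : (Fin (8 + n) → Fin 3 → ℂ) × (ℂ × ℂ) =>
        crossProduct (chart e.2) (first e.1 k) := by
      have a1 := continuous_pi_iff.1 hch
      have a2 := continuous_pi_iff.1 (hfk k)
      simp only [cross_apply]
      refine continuous_pi fun i => ?_
      fin_cases i
      · exact ((a1 1).mul (a2 2)).sub ((a1 2).mul (a2 1))
      · exact ((a1 2).mul (a2 0)).sub ((a1 0).mul (a2 2))
      · exact ((a1 0).mul (a2 1)).sub ((a1 1).mul (a2 0))
    refine key _ hc ?_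
    simp only [first_w0, chart, cross_apply]
    intro h0
    have b0 := congrFun h0 0
    have b1 := congrFun h0 1
    revert b0 b1
    fin_cases k <;> (simp [v0, Pz]; try norm_num)
  have h7 : ∀ᶠ e : (Fin (8 + n) → Fin 3 → ℂ) × (ℂ × ℂ) in nhds (w0 n, ((1 : ℂ), (1 : ℂ))),
      ∀ k, eval (first e.1 k) (Jac (first e.1)) ≠ 0 := by
    rw [Filter.eventually_all]; intro k
    have hc : Continuous fun e : (Fin (8 + n) → Fin 3 → ℂ) × (ℂ × ℂ) =>
        eval (first e.1 k) (Jac (first e.1)) := by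
      simp only [Jac, map_sub, map_mul]
      exact ((continuous_pderiv_corr f0 0 hf (hfk k)).mul
        (continuous_pderiv_corr g0 1 hf (hfk k))).sub
        ((continuous_pderiv_corr f0 1 hf (hfk k)).mul (continuous_pderiv_corr g0 0 hf (hfk k)))
    refine key _ hc ?_
    simp only [first_w0, Jac_v0]
    fin_cases k <;> simp [v0, Pz, hD] <;> norm_num
  have hall := h1.and (h2.and (h3.and (h4.and (h5.and (h6.and h7)))))
  refine (exists_ninth (w0 n) (first_w0 n) _ hall).mono fun w hw => ?_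
  obtain ⟨x, ⟨c1, c2, c3, c4, c5, c6, c7⟩, hx⟩ := hw
  simp only [hh, Prod.mk_eq_zero] at hx
  exact ⟨x, ⟨hx.1, hx.2, c1, c2, c3, c4, c5, c6, c7⟩⟩


/-! ### Algebra -/

/-- exponent vectors of the eight monomials -/
noncomputable def expo (j : Fin 8) : Fin 3 →₀ ℕ := Finsupp.equivFunOnFinite.symm ![ea j, eb j, ec j]

lemma q_eq (j : Fin 8) : q j = monomial (expo j) 1 := by
  rw [monomial_eq]
  simp only [map_one, one_mul]
  rw [Finsupp.prod_fintype _ _ (by simp)]
  simp [Fin.prod_univ_three, q, expo]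

lemma expo_inj : Function.Injective expo := by
  intro i j h
  have h0 := DFunLike.congr_fun h 0
  have h1 := DFunLike.congr_fun h 1
  simp only [expo, Finsupp.equivFunOnFinite_symm_apply_apply, Matrix.cons_val_zero,
    Matrix.cons_val_one] at h0 h1
  clear h
  revert h0 h1
  revert i j
  decide

lemma cubic_zero {v : Fin 8 → Fin 3 → ℂ} (hdet : (M v).det ≠ 0) {G : MvPolynomial (Fin 3) ℂ}
    (hG : G.IsHomogeneous 3) (hX : X 2 ∣ G) (hv : ∀ k, eval (v k) G = 0) : G = 0 := by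
  have key : G = ∑ j, C (coeff (expo j) G) * q j := by
    ext d
    rw [coeff_sum]
    simp only [q_eq, coeff_C_mul, coeff_monomial, mul_ite, mul_one, mul_zero]
    by_cases hd : ∃ j0, expo j0 = d
    · obtain ⟨j0, hj0⟩ := hd
      rw [Finset.sum_eq_single j0]
      · simp [hj0]
      · intro j _ hj
        rw [if_neg]
        intro h
        exact hj (expo_inj (h.trans hj0.symm))
      · simp
    · have hz : coeff d G = 0 := by
        by_contra hne
        apply hd
        have hdeg : d 0 + d 1 + d 2 = 3 := by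
          have h1 := hG.degree_eq_sum_deg_support (mem_support_iff.2 hne)
          have h2 : ∑ i ∈ d.support, d i = ∑ i, d i :=
            Finset.sum_subset (Finset.subset_univ _) (by simp)
          rw [h2, Fin.sum_univ_three] at h1
          exact h1.symm
        have h2 : 1 ≤ d 2 := by
          obtain ⟨H, hH⟩ := hX
          by_contra h0
          have h0' : (2 : Fin 3) ∉ d.support := by
            rw [Finsupp.mem_support_iff]; omega
          rw [hH, coeff_X_mul'] at hne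
          simp [h0'] at hne
        have h3 : ∀ j : Fin 8, d 0 = ea j → d 1 = eb j → d 2 = ec j → expo j = d := by
          intro j a b c
          ext i
          fin_cases i
          · simpa [expo] using a.symm
          · simpa [expo] using b.symm
          · simpa [expo] using c.symm
        have hcase : (d 0 = 0 ∧ d 1 = 0 ∧ d 2 = 3) ∨ (d 0 = 1 ∧ d 1 = 0 ∧ d 2 = 2) ∨
            (d 0 = 0 ∧ d 1 = 1 ∧ d 2 = 2) ∨ (d 0 = 2 ∧ d 1 = 0 ∧ d 2 = 1) ∨
            (d 0 = 1 ∧ d 1 = 1 ∧ d 2 = 1) ∨ (d 0 = 0 ∧ d 1 = 2 ∧ d 2 = 1) := by omega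
        rcases hcase with ⟨a, b, c⟩ | ⟨a, b, c⟩ | ⟨a, b, c⟩ | ⟨a, b, c⟩ | ⟨a, b, c⟩ | ⟨a, b, c⟩
        · exact ⟨0, h3 0 a b c⟩
        · exact ⟨1, h3 1 a b c⟩
        · exact ⟨2, h3 2 a b c⟩
        · exact ⟨3, h3 3 a b c⟩
        · exact ⟨4, h3 4 a b c⟩
        · exact ⟨5, h3 5 a b c⟩
      rw [hz, Finset.sum_eq_zero]
      intro j _
      rw [if_neg]
      intro h
      exact hd ⟨j, h⟩
  have hmul : (M v).mulVec (fun j => coeff (expo j) G) = 0 := by
    funext k
    have h1 := hv k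
    rw [key] at h1
    simp only [map_sum, map_mul, eval_C] at h1
    rw [Pi.zero_apply, ← h1]
    simp only [Matrix.mulVec, dotProduct, M, Matrix.of_apply]
    exact Finset.sum_congr rfl fun j _ => mul_comm _ _
  have hz := Matrix.eq_zero_of_mulVec_eq_zero hdet hmul
  rw [key]
  refine Finset.sum_eq_zero fun j _ => ?_
  have := congrFun hz j
  simp only [Pi.zero_apply] at this
  rw [this, map_zero, zero_mul]

lemma no_conic {v : Fin 8 → Fin 3 → ℂ} (hdet : (M v).det ≠ 0) {l : MvPolynomial (Fin 3) ℂ}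
    (hl : l.totalDegree ≤ 2) (hv : ∀ k, ∀ s : ℂ, s ≠ 0 → eval (s • v k) l = 0) : l = 0 := by
  have hsum : l = homogeneousComponent 0 l + homogeneousComponent 1 l +
      homogeneousComponent 2 l := by
    have h1 := sum_homogeneousComponent l
    have h2 : ∑ i ∈ Finset.range (l.totalDegree + 1), homogeneousComponent i l =
        ∑ i ∈ Finset.range 3, homogeneousComponent i l := by
      refine Finset.sum_subset (fun i hi => ?_) fun i _ hi => ?_
      · rw [Finset.mem_range] at hi ⊢; omega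
      · rw [Finset.mem_range] at hi
        exact homogeneousComponent_eq_zero _ _ (by omega)
    rw [h2, Finset.sum_range_succ, Finset.sum_range_succ, Finset.sum_range_one] at h1
    exact h1.symm
  have hcomp : ∀ e, e ≤ 2 → ∀ k, eval (v k) (homogeneousComponent e l) = 0 := by
    have h0 : ∀ k (s : ℂ), s ≠ 0 → eval (v k) (homogeneousComponent 0 l) +
        s * eval (v k) (homogeneousComponent 1 l) +
        s ^ 2 * eval (v k) (homogeneousComponent 2 l) = 0 := by
      intro k s hs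
      have h1 := hv k s hs
      rw [hsum, map_add, map_add,
        eval_smul_hom (homogeneousComponent_isHomogeneous 0 l),
        eval_smul_hom (homogeneousComponent_isHomogeneous 1 l),
        eval_smul_hom (homogeneousComponent_isHomogeneous 2 l)] at h1
      linear_combination h1
    intro e he k
    have a1 := h0 k 1 one_ne_zero
    have a2 := h0 k 2 two_ne_zero
    have a3 := h0 k 3 three_ne_zero
    interval_cases e
    · linear_combination 3 * a1 - 3 * a2 + a3
    · linear_combination (-5 / 2 : ℂ) * a1 + 4 * a2 - (3 / 2 : ℂ) * a3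
    · linear_combination (1 / 2 : ℂ) * a1 - a2 + (1 / 2 : ℂ) * a3
  have hz : ∀ e, e ≤ 2 → homogeneousComponent e l = 0 := by
    intro e he
    have hG : (X 2 ^ (3 - e) * homogeneousComponent e l : MvPolynomial (Fin 3) ℂ) = 0 := by
      refine cubic_zero hdet ?_ ?_ ?_
      · have h1 := (isHomogeneous_X_pow (R := ℂ) (2 : Fin 3) (3 - e)).mul
          (homogeneousComponent_isHomogeneous e l)
        rwa [Nat.sub_add_cancel (by omega : e ≤ 3)] at h1
      · exact Dvd.dvd.mul_right (dvd_pow_self _ (by omega)) _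
      · intro k
        rw [map_mul, hcomp e he k, mul_zero]
    rcases mul_eq_zero.1 hG with h | h
    · exact absurd h (pow_ne_zero _ (X_ne_zero _))
    · exact h
  rw [hsum, hz 0 (by norm_num), hz 1 (by norm_num), hz 2 (by norm_num)]
  simp

lemma no_factor {v : Fin 8 → Fin 3 → ℂ} (hdet : (M v).det ≠ 0) {G p a : MvPolynomial (Fin 3) ℂ}
    (hG : G.IsHomogeneous 3) (hG0 : G ≠ 0) (hGv : ∀ k, eval (v k) G = 0) (hpa : G = p * a)
    (hp : ∀ k, ∀ s : ℂ, s ≠ 0 → eval (s • v k) p ≠ 0) : IsUnit p := by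
  have hp0 : p ≠ 0 := by rintro rfl; simp at hpa; exact hG0 hpa
  have ha0 : a ≠ 0 := by rintro rfl; simp at hpa; exact hG0 hpa
  by_contra hu
  have hdeg : p.totalDegree + a.totalDegree = 3 := by
    rw [← totalDegree_mul_of_isDomain hp0 ha0, ← hpa]
    exact hG.totalDegree hG0
  have hpd : p.totalDegree ≠ 0 := by
    intro h
    rw [totalDegree_eq_zero_iff_eq_C] at h
    apply hu
    rw [h]
    refine (isUnit_iff_ne_zero.2 ?_).map C
    intro h0
    rw [h0, map_zero] at h
    exact hp0 h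
  refine ha0 (no_conic hdet (by omega) fun k s hs => ?_)
  have h1 : eval (s • v k) G = 0 := by rw [eval_smul_hom hG, hGv, mul_zero]
  rw [hpa, map_mul] at h1
  exact (mul_eq_zero.1 h1).resolve_left (hp k s hs)


lemma pencil_left {n : ℕ} (w : Fin (8 + n) → Fin 3 → ℂ) (i j : Fin n) :
    C (eval (extra w j) (corr f0 (first w))) * Cc w i -
      C (eval (extra w i) (corr f0 (first w))) * Cc w j =
    C (eval (extra w j) (Cc w i)) * corr f0 (first w) := by
  simp only [Cc, map_sub, map_mul, eval_C]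
  ring

lemma pencil_right {n : ℕ} (w : Fin (8 + n) → Fin 3 → ℂ) (i j : Fin n) :
    C (eval (extra w j) (corr g0 (first w))) * Cc w i -
      C (eval (extra w i) (corr g0 (first w))) * Cc w j =
    C (eval (extra w j) (Cc w i)) * corr g0 (first w) := by
  simp only [Cc, map_sub, map_mul, eval_C]
  ring

lemma Cc_hom {n : ℕ} (w : Fin (8 + n) → Fin 3 → ℂ) (i : Fin n) :
    (Cc w i).IsHomogeneous 3 :=
  ((corr_hom f0_hom _).C_mul _).sub ((corr_hom g0_hom _).C_mul _)

lemma Cc_first {n : ℕ} (w : Fin (8 + n) → Fin 3 → ℂ) (i : Fin n) (k : Fin 8) :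
    eval (first w k) (Cc w i) = 0 := by
  simp only [Cc, map_sub, map_mul, eval_corr, mul_zero, sub_zero]

lemma Cc_extra {n : ℕ} (w : Fin (8 + n) → Fin 3 → ℂ) (i : Fin n) :
    eval (extra w i) (Cc w i) = 0 := by
  simp only [Cc, map_sub, map_mul, eval_C]
  ring

lemma Jac_hom (v : Fin 8 → Fin 3 → ℂ) : (Jac v).IsHomogeneous 4 := by
  have h1 : ∀ i, (pderiv i (corr f0 v)).IsHomogeneous 2 := fun i =>
    pderiv_hom (n := 2) (corr_hom f0_hom v) i
  have h2 : ∀ i, (pderiv i (corr g0 v)).IsHomogeneous 2 := fun i =>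
    pderiv_hom (n := 2) (corr_hom g0_hom v) i
  exact ((h1 0).mul (h2 1)).sub ((h1 1).mul (h2 0))

lemma Good.sqf {n : ℕ} {w : Fin (8 + n) → Fin 3 → ℂ} {u : Fin 3 → ℂ} (h : Good w u)
    (i : Fin n) : Squarefree (Cc w i) := by
  intro p hp
  obtain ⟨b, hb⟩ := hp
  have hC0 : Cc w i ≠ 0 := by
    intro h0
    have := h.dy i
    rw [h0] at this
    simp at this
  refine no_factor h.det (Cc_hom w i) hC0 (fun k => Cc_first w i k) (a := p * b)
    (by rw [hb]; ring) fun k s hs hz => ?_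
  have h1 : eval (s • first w k) (pderiv 0 (Cc w i)) ≠ 0 := by
    rw [eval_smul_hom (pderiv_hom (n := 2) (Cc_hom w i) 0)]
    exact mul_ne_zero (pow_ne_zero _ hs) (h.dk i k)
  apply h1
  rw [hb, pderiv_mul, pderiv_mul]
  simp only [map_add, map_mul, hz]
  ring

lemma Good.relPrime {n : ℕ} {w : Fin (8 + n) → Fin 3 → ℂ} {u : Fin 3 → ℂ} (h : Good w u)
    {i j : Fin n} (hij : i ≠ j) : IsRelPrime (Cc w i) (Cc w j) := by
  intro p hpi hpj
  have hα : eval (extra w j) (Cc w i) ≠ 0 := h.cy i j hij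
  have hunit : IsUnit (C (eval (extra w j) (Cc w i)) : MvPolynomial (Fin 3) ℂ) :=
    (isUnit_iff_ne_zero.2 hα).map C
  have hf : p ∣ corr f0 (first w) := by
    rw [← hunit.dvd_mul_left, ← pencil_left]
    exact (hpi.mul_left _).sub (hpj.mul_left _)
  have hg : p ∣ corr g0 (first w) := by
    rw [← hunit.dvd_mul_left, ← pencil_right]
    exact (hpi.mul_left _).sub (hpj.mul_left _)
  obtain ⟨a, ha⟩ := hf
  obtain ⟨b, hb⟩ := hg
  have hf0 : corr f0 (first w) ≠ 0 := by
    intro h0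
    have := h.jac 0
    apply this
    simp [Jac, h0]
  refine no_factor h.det (corr_hom f0_hom _) hf0 (fun k => eval_corr _ _ k) ha
    fun k s hs hz => ?_
  have h1 : eval (s • first w k) (Jac (first w)) ≠ 0 := by
    rw [eval_smul_hom (Jac_hom _)]
    exact mul_ne_zero (pow_ne_zero _ hs) (h.jac k)
  apply h1
  simp only [Jac, ha, hb, pderiv_mul, map_sub, map_add, map_mul, hz]
  ring

/-- restriction of a polynomial to the line through `z` in the first coordinate direction -/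
noncomputable def restr (z : Fin 3 → ℂ) : MvPolynomial (Fin 3) ℂ →ₐ[ℂ] Polynomial ℂ :=
  aeval fun i => Polynomial.C (z i) + (if i = 0 then Polynomial.X else 0)

lemma restr_coeff_zero (z : Fin 3 → ℂ) (G : MvPolynomial (Fin 3) ℂ) :
    (restr z G).eval 0 = eval z G := by
  have h : ((Polynomial.evalRingHom 0).comp (restr z).toRingHom) = (eval z) := by
    ext i
    · simp [restr]
    · by_cases hi : i = 0 <;> simp [restr, hi]
  exact RingHom.congr_fun h G

lemma restr_derivative (z : Fin 3 → ℂ) (G : MvPolynomial (Fin 3) ℂ) :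
    Polynomial.derivative (restr z G) = restr z (pderiv 0 G) := by
  induction G using MvPolynomial.induction_on with
  | C a => simp [restr]
  | add p q hp hq => simp [hp, hq]
  | mul_X p i hp =>
    rw [map_mul, Polynomial.derivative_mul, hp, pderiv_mul, map_add, map_mul, map_mul]
    by_cases hi : i = 0
    · subst hi
      simp [restr]
    · rw [pderiv_X_of_ne hi]
      simp [restr, hi]

lemma X_dvd_restr {z : Fin 3 → ℂ} {G : MvPolynomial (Fin 3) ℂ} (h : eval z G = 0) :
    Polynomial.X ∣ restr z G := by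
  rw [Polynomial.X_dvd_iff, Polynomial.coeff_zero_eq_eval_zero, restr_coeff_zero, h]

lemma mult_prod {n : ℕ} (G : Fin n → MvPolynomial (Fin 3) ℂ) (z : Fin 3 → ℂ)
    (A : Finset (Fin n)) (hA : ∀ i ∈ A, eval z (G i) = 0 ∧ eval z (pderiv 0 (G i)) ≠ 0)
    (hB : ∀ i, i ∉ A → eval z (G i) ≠ 0) :
    (∏ i, G i) ∈ (RingHom.ker (eval z)) ^ A.card ∧
    (∏ i, G i) ∉ (RingHom.ker (eval z)) ^ (A.card + 1) := by
  classical
  have hsplit : (∏ i, G i) = (∏ i ∈ A, G i) * ∏ i ∈ Aᶜ, G i :=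
    (Finset.prod_mul_prod_compl A G).symm
  constructor
  · rw [hsplit]
    refine Ideal.mul_mem_right _ _ ?_
    have h1 := Ideal.prod_mem_prod (s := A) (I := fun _ => RingHom.ker (eval z)) (x := G)
      (fun i hi => by rw [RingHom.mem_ker]; exact (hA i hi).1)
    rwa [Finset.prod_const] at h1
  · intro hmem
    -- push to one variable
    have hle : RingHom.ker (eval z) ≤
        (Ideal.span {(Polynomial.X : Polynomial ℂ)}).comap (restr z) := by
      intro P hP
      rw [Ideal.mem_comap, Ideal.mem_span_singleton]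
      exact X_dvd_restr (by rwa [RingHom.mem_ker] at hP)
    have h2 : restr z (∏ i, G i) ∈ (Ideal.span {(Polynomial.X : Polynomial ℂ)}) ^ (A.card + 1) := by
      have h3 := Ideal.pow_right_mono hle (A.card + 1) hmem
      have h4 := Ideal.le_comap_pow (restr z) (A.card + 1) h3
      rwa [Ideal.mem_comap] at h4
    rw [Ideal.span_singleton_pow, Ideal.mem_span_singleton] at h2
    -- factor
    have hfac : ∀ i ∈ A, ∃ H : Polynomial ℂ, restr z (G i) = Polynomial.X * H ∧ H.eval 0 ≠ 0 := by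
      intro i hi
      obtain ⟨H, hH⟩ := X_dvd_restr (hA i hi).1
      refine ⟨H, hH, ?_⟩
      have h5 := restr_derivative z (G i)
      rw [hH, Polynomial.derivative_mul, Polynomial.derivative_X] at h5
      have h6 := congrArg (Polynomial.eval 0) h5
      rw [restr_coeff_zero] at h6
      simp at h6
      rw [h6]
      exact (hA i hi).2
    choose! H hH hH0 using hfac
    rw [hsplit, map_mul, map_prod, map_prod, Finset.prod_congr rfl hH, Finset.prod_mul_distrib,
      Finset.prod_const, pow_succ, mul_assoc] at h2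
    have h7 : Polynomial.X ∣ (∏ i ∈ A, H i) * ∏ i ∈ Aᶜ, restr z (G i) :=
      (mul_dvd_mul_iff_left (pow_ne_zero _ Polynomial.X_ne_zero)).1 h2
    rw [Polynomial.X_dvd_iff, Polynomial.coeff_zero_eq_eval_zero, Polynomial.eval_mul,
      Polynomial.eval_prod, Polynomial.eval_prod] at h7
    rcases mul_eq_zero.1 h7 with h8 | h8
    · obtain ⟨i, hi, hi0⟩ := Finset.prod_eq_zero_iff.1 h8
      exact hH0 i hi hi0
    · obtain ⟨i, hi, hi0⟩ := Finset.prod_eq_zero_iff.1 h8
      rw [restr_coeff_zero] at hi0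
      exact hB i (by simpa using hi) hi0


/-! ### From a good configuration to a reduced curve -/

lemma hasMult_smul {n : ℕ} (G : Fin n → MvPolynomial (Fin 3) ℂ) {z : Fin 3 → ℂ} (hz : z ≠ 0)
    (A : Finset (Fin n)) (hG : ∀ i, (G i).IsHomogeneous 3)
    (hA : ∀ i ∈ A, eval z (G i) = 0 ∧ eval z (pderiv 0 (G i)) ≠ 0)
    (hB : ∀ i, i ∉ A → eval z (G i) ≠ 0) :
    HasMult (∏ i, G i) (Projectivization.mk ℂ z hz) A.card := by
  obtain ⟨a, ha⟩ := Projectivization.exists_smul_eq_mk_rep ℂ z hz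
  have ha' : (a : ℂ) • z = (Projectivization.mk ℂ z hz).rep := ha
  unfold HasMult
  rw [← ha']
  refine mult_prod G _ A (fun i hi => ⟨?_, ?_⟩) fun i hi => ?_
  · rw [eval_smul_hom (hG i), (hA i hi).1, mul_zero]
  · rw [eval_smul_hom (pderiv_hom (n := 2) (hG i) 0)]
    exact mul_ne_zero (pow_ne_zero _ a.ne_zero) (hA i hi).2
  · rw [eval_smul_hom (hG i)]
    exact mul_ne_zero (pow_ne_zero _ a.ne_zero) (hB i hi)

/-- the multiplicities `(n^8, 1^n)` -/
def mm (n : ℕ) : Fin (8 + n) → ℕ := Fin.addCases (fun _ => n) (fun _ => 1)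

lemma Good.first_ne {n : ℕ} {w : Fin (8 + n) → Fin 3 → ℂ} {u : Fin 3 → ℂ} (h : Good w u)
    (k : Fin 8) : first w k ≠ 0 := by
  intro h0
  have := h.cross k
  rw [h0, map_zero] at this
  exact this rfl

lemma Good.extra_ne {n : ℕ} {w : Fin (8 + n) → Fin 3 → ℂ} {u : Fin 3 → ℂ} (h : Good w u)
    (i : Fin n) : extra w i ≠ 0 := by
  intro h0
  have h1 := h.dy i
  rw [h0] at h1
  have h2 := eval_smul_hom (pderiv_hom (n := 2) (Cc_hom w i) 0) 0 0
  rw [smul_zero] at h2
  apply h1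
  rw [h2]
  simp

lemma Good.ne {n : ℕ} {w : Fin (8 + n) → Fin 3 → ℂ} {u : Fin 3 → ℂ} (h : Good w u)
    (i : Fin (8 + n)) : w i ≠ 0 := by
  refine Fin.addCases (fun k => ?_) (fun k => ?_) i
  · exact h.first_ne k
  · exact h.extra_ne k

lemma Good.Cc_u {n : ℕ} {w : Fin (8 + n) → Fin 3 → ℂ} {u : Fin 3 → ℂ} (h : Good w u)
    (i : Fin n) : eval u (Cc w i) = 0 := by
  simp only [Cc, map_sub, map_mul, h.fu, h.gu, mul_zero, sub_zero]

lemma exists_other {n : ℕ} (hn : 2 ≤ n) (j : Fin n) : ∃ i : Fin n, i ≠ j := by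
  have : Nontrivial (Fin n) := Fin.nontrivial_iff_two_le.2 hn
  exact exists_ne j

lemma Good.reducedMember {n : ℕ} (hn : 2 ≤ n) {w : Fin (8 + n) → Fin 3 → ℂ} {u : Fin 3 → ℂ}
    (h : Good w u) (hu : u ≠ 0) :
    ReducedMember (fun i => Projectivization.mk ℂ (w i) (h.ne i)) (3 * n) (mm n) n := by
  -- an extra point never lies on the zero set of all members of the pencil
  have hE : ∀ (z : Fin 3 → ℂ) (j : Fin n), (∀ i, i ≠ j → eval z (Cc w i) = 0) →
      ∀ a : ℂˣ, a • extra w j ≠ z := by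
    intro z j hz a ha
    obtain ⟨i, hi⟩ := exists_other hn j
    have h1 := hz i hi
    have ha' : (a : ℂ) • extra w j = z := ha
    rw [← ha', eval_smul_hom (Cc_hom w i)] at h1
    exact mul_ne_zero (pow_ne_zero _ a.ne_zero) (h.cy i j hi) h1
  have hkl : ∀ k l : Fin 8, ∀ a : ℂˣ, a • first w l = first w k → k = l := by
    intro k l a ha
    by_contra hne
    apply h.det
    rw [← Matrix.exists_vecMul_eq_zero_iff]
    refine ⟨Pi.single k 1 - Pi.single l ((a : ℂ) ^ 3), ?_, ?_⟩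
    · intro h0
      have := congrFun h0 k
      simp [hne] at this
    · rw [Matrix.sub_vecMul, Matrix.single_vecMul, Matrix.single_vecMul]
      funext j
      have ha' : (a : ℂ) • first w l = first w k := ha
      have h1 := eval_smul_hom (q_hom j) (a : ℂ) (first w l)
      rw [ha'] at h1
      simp [M, h1]
  refine ⟨?_, ∏ i, Cc w i, ?_, ?_, ?_, ?_, Projectivization.mk ℂ u hu, ?_, ?_⟩
  · -- the points are distinct
    intro i j
    refine Fin.addCases (fun k => ?_) (fun k => ?_) i <;>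
      refine Fin.addCases (fun l => ?_) (fun l => ?_) j <;> intro hij <;>
      rw [Projectivization.mk_eq_mk_iff] at hij <;> obtain ⟨a, ha⟩ := hij
    · rw [hkl k l a ha]
    · exact absurd ha (hE _ l (fun i _ => Cc_first w i k) a)
    · have ha' : a⁻¹ • extra w k = first w l := by
        have h1 : a • first w l = extra w k := ha
        rw [← h1, inv_smul_smul]
      exact absurd ha' (hE _ k (fun i _ => Cc_first w i l) _)
    · by_cases hkl' : k = l
      · rw [hkl']
      · exfalso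
        have h1 : eval (extra w k) (Cc w k) = 0 := Cc_extra w k
        have ha' : (a : ℂ) • extra w l = extra w k := ha
        rw [← ha', eval_smul_hom (Cc_hom w k)] at h1
        exact mul_ne_zero (pow_ne_zero _ a.ne_zero) (h.cy k l hkl') h1
  · rw [Finset.prod_ne_zero_iff]
    intro i _ h0
    have := h.dy i
    rw [h0] at this
    simp at this
  · have h1 := IsHomogeneous.prod Finset.univ (fun i => Cc w i) (fun _ => 3)
      (fun i _ => Cc_hom w i)
    simpa [mul_comm] using h1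
  · exact Finset.squarefree_prod_of_pairwise_isCoprime (fun i _ j _ hij => h.relPrime hij)
      (fun i _ => h.sqf i)
  · intro i
    refine Fin.addCases (fun k => ?_) (fun k => ?_) i
    · have h1 := hasMult_smul (fun i => Cc w i) (h.first_ne k) Finset.univ (Cc_hom w)
        (fun i _ => ⟨Cc_first w i k, h.dk i k⟩) (fun i hi => absurd (Finset.mem_univ i) hi)
      rw [Finset.card_univ, Fintype.card_fin] at h1
      have h2 : mm n (Fin.castAdd n k) = n := by simp [mm]
      rw [h2]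
      exact h1
    · have h1 := hasMult_smul (fun i => Cc w i) (h.extra_ne k) {k} (Cc_hom w)
        (fun i hi => by
          rw [Finset.mem_singleton] at hi
          subst hi
          exact ⟨Cc_extra w i, h.dy i⟩)
        (fun i hi => by
          rw [Finset.mem_singleton] at hi
          exact h.cy i k hi)
      rw [Finset.card_singleton] at h1
      have h2 : mm n (Fin.natAdd 8 k) = 1 := by simp [mm]
      rw [h2]
      exact h1
  · intro i
    refine Fin.addCases (fun k => ?_) (fun k => ?_) i <;> intro hij <;>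
      rw [Projectivization.mk_eq_mk_iff] at hij <;> obtain ⟨a, ha⟩ := hij
    · apply h.cross k
      have ha' : (a : ℂ) • first w k = u := ha
      rw [← ha', map_smul, LinearMap.smul_apply, cross_self, smul_zero]
    · exact hE u k (fun i _ => h.Cc_u i) a ha
  · have h1 := hasMult_smul (fun i => Cc w i) hu Finset.univ (Cc_hom w)
        (fun i _ => ⟨h.Cc_u i, h.du i⟩) (fun i hi => absurd (Finset.mem_univ i) hi)
    rwa [Finset.card_univ, Fintype.card_fin] at h1

/-! ### Countable unions of proper closed sets -/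

lemma analytic_eval {r : ℕ} (G : MvPolynomial (Fin r × Fin 3) ℂ) :
    AnalyticOnNhd ℂ (fun w : Fin r → Fin 3 → ℂ => eval (fun jk : Fin r × Fin 3 => w jk.1 jk.2) G)
      Set.univ := by
  have h := AnalyticOnNhd.aeval_mvPolynomial (𝕜 := ℂ) (E := Fin r → Fin 3 → ℂ) (A := ℂ) (B := ℂ)
    (s := Set.univ) (f := fun w => fun jk : Fin r × Fin 3 => w jk.1 jk.2) (fun jk => by
      have : ContDiff ℂ ⊤ fun w : Fin r → Fin 3 → ℂ => w jk.1 jk.2 := by fun_prop
      exact this.analyticOnNhd) G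
  exact h

lemma not_covered {r : ℕ} (S : Set (Fin r → Plane)) (w0 : Fin r → Fin 3 → ℂ)
    (hS : ∀ᶠ w in nhds w0, ∃ hw : ∀ i, w i ≠ 0,
      (fun i => Projectivization.mk ℂ (w i) (hw i)) ∈ S) :
    ¬ ∃ Z : ℕ → Set (Fin r → Plane),
      (∀ n, IsZariskiClosed (Z n) ∧ Z n ≠ Set.univ) ∧ S ⊆ ⋃ n, Z n := by
  rintro ⟨Z, hZ, hSZ⟩
  -- choose polynomials
  have hG : ∀ n, ∃ G : MvPolynomial (Fin r × Fin 3) ℂ,
      (∀ (v : Fin r → Fin 3 → ℂ) (hv : ∀ i, v i ≠ 0),
        (fun i => Projectivization.mk ℂ (v i) (hv i)) ∈ Z n →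
        eval (fun jk : Fin r × Fin 3 => v jk.1 jk.2) G = 0) ∧
      ∃ v : Fin r → Fin 3 → ℂ, eval (fun jk : Fin r × Fin 3 => v jk.1 jk.2) G ≠ 0 := by
    intro n
    obtain ⟨⟨I, _, hI⟩, hne⟩ := hZ n
    obtain ⟨p, hp⟩ := (Set.ne_univ_iff_exists_notMem _).1 hne
    have h1 := hI (fun i => (p i).rep) (fun i => (p i).rep_nonzero)
    simp only [Projectivization.mk_rep] at h1
    have h2 : ¬ ∀ G ∈ I, eval (fun jk : Fin r × Fin 3 => (p jk.1).rep jk.2) G = 0 :=
      fun h => hp (h1.2 h)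
    push Not at h2
    obtain ⟨G, hGI, hG⟩ := h2
    exact ⟨G, fun v hv hmem => (hI v hv).1 hmem G hGI, fun i => (p i).rep, hG⟩
  choose G hG1 hG2 using hG
  have hopen : ∀ n, IsOpen {w : Fin r → Fin 3 → ℂ |
      eval (fun jk : Fin r × Fin 3 => w jk.1 jk.2) (G n) ≠ 0} := by
    intro n
    have hc : Continuous fun w : Fin r → Fin 3 → ℂ =>
        eval (fun jk : Fin r × Fin 3 => w jk.1 jk.2) (G n) :=
      (MvPolynomial.continuous_eval _).comp
        (continuous_pi fun jk => (continuous_apply jk.2).comp (continuous_apply jk.1))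
    exact isOpen_ne_fun hc continuous_const
  have hdense : ∀ n, Dense {w : Fin r → Fin 3 → ℂ |
      eval (fun jk : Fin r × Fin 3 => w jk.1 jk.2) (G n) ≠ 0} := by
    intro n
    have hint : interior {w : Fin r → Fin 3 → ℂ |
        eval (fun jk : Fin r × Fin 3 => w jk.1 jk.2) (G n) = 0} = ∅ := by
      by_contra hne
      obtain ⟨w, hw⟩ := Set.nonempty_iff_ne_empty.2 hne
      rw [mem_interior_iff_mem_nhds] at hw
      have h1 := (analytic_eval (G n)).eqOn_zero_of_preconnected_of_eventuallyEq_zero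
        isPreconnected_univ (Set.mem_univ w) hw
      obtain ⟨v, hv⟩ := hG2 n
      exact hv (h1 (Set.mem_univ v))
    exact interior_eq_empty_iff_dense_compl.1 hint
  have hd := dense_iInter_of_isOpen_nat hopen hdense
  obtain ⟨w, hw1, hw2⟩ := hd.inter_nhds_nonempty hS
  obtain ⟨hw, hwS⟩ := hw2
  obtain ⟨n, hn⟩ := Set.mem_iUnion.1 (hSZ hwS)
  exact (Set.mem_iInter.1 hw1 n) (hG1 n w hw hn)

/-! ### The main theorem -/

lemma ineq (t : ℕ) (ht : 3 ≤ t) :
    (((3 * t + 2).choose 2 : ℕ) : ℤ) - ∑ i, ((((mm t) i + 1).choose 2 : ℕ) : ℤ) ≤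
      max ((((t + 1).choose 2 : ℕ) : ℤ) - 2) 0 := by
  have hsum : ∑ i, ((((mm t) i + 1).choose 2 : ℕ) : ℤ) = 8 * ((t + 1).choose 2 : ℕ) + t := by
    rw [Fin.sum_univ_add]
    simp [mm]
  rw [hsum]
  refine le_max_of_le_left ?_
  have h1 : (((3 * t + 2).choose 2 : ℕ) : ℤ) * 2 = (3 * t + 2) * (3 * t + 1) := by
    have h := Nat.choose_two_right (3 * t + 2)
    have he : 2 ∣ (3 * t + 2) * (3 * t + 2 - 1) := (Nat.even_mul_pred_self _).two_dvd
    have h2 := Nat.div_mul_cancel he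
    rw [← h] at h2
    have h3 : 3 * t + 2 - 1 = 3 * t + 1 := by omega
    rw [h3] at h2
    exact_mod_cast h2
  have h2 : (((t + 1).choose 2 : ℕ) : ℤ) * 2 = (t + 1) * t := by
    have h := Nat.choose_two_right (t + 1)
    have he : 2 ∣ (t + 1) * (t + 1 - 1) := (Nat.even_mul_pred_self _).two_dvd
    have h2 := Nat.div_mul_cancel he
    rw [← h] at h2
    have h3 : t + 1 - 1 = t := by omega
    rw [h3] at h2
    exact_mod_cast h2
  have ht' : (3 : ℤ) ≤ t := by exact_mod_cast ht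
  nlinarith

/-- **The conjecture fails for every `t ≥ 3`.** For every `t ≥ 3` there are `r`, `d ≥ 1` and
`m₁, …, m_r` satisfying the numerical inequality such that the set of configurations
`(p₁, …, p_r)` for which `|dH - ∑ mᵢEᵢ|` contains a reduced curve with a point of multiplicity
`t` is not contained in any countable union of proper Zariski closed subsets of `(ℙ²)^r`. -/
theorem result (t : ℕ) (ht : 3 ≤ t) :
    ∃ (r d : ℕ) (m : Fin r → ℕ), 1 ≤ d ∧
      (((d + 2).choose 2 : ℕ) : ℤ) - ∑ i, (((m i + 1).choose 2 : ℕ) : ℤ) ≤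
        max ((((t + 1).choose 2 : ℕ) : ℤ) - 2) 0 ∧
      ¬ ∃ Z : ℕ → Set (Fin r → Plane),
        (∀ n, IsZariskiClosed (Z n) ∧ Z n ≠ Set.univ) ∧
          {p : Fin r → Plane | ReducedMember p d m t} ⊆ ⋃ n, Z n := by
  refine ⟨8 + t, 3 * t, mm t, by omega, ineq t ht, ?_⟩
  refine not_covered _ (w0 t) ?_
  refine (exists_good t).mono fun w hw => ?_
  obtain ⟨x, hx⟩ := hw
  refine ⟨hx.ne, hx.reducedMember (by omega) ?_⟩
  intro h0
  have := congrFun h0 2
  simp [chart] at this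

end Pool.Agent.Results.MP_b1ca72_ag.NinthBasePoint
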